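import Mathlib

/-!
# A linear context-free language which describes paths
-/

set_option autoImplicit false

namespace Pool.Agent.HM94.LIN

/-- A linear context-free grammar with the terminal symbols `α` and the nonterminal symbols `N`: a
start symbol, rules `A → u B v` and rules `A → u`. -/
structure LinGrammar (α N : Type) where
  start : N
  rules : List (N × List α × N × List α)
  stops : List (N × List α)

/-- The words which are generated by a nonterminal symbol. -/
inductive Gen {α N : Type} (G : LinGrammar α N) : N → List α → Prop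
  | stop {A : N} {u : List α} : (A, u) ∈ G.stops → Gen G A u
  | step {A B : N} {u v w : List α} : (A, u, B, v) ∈ G.rules → Gen G B w → Gen G A (u ++ w ++ v)

/-- The generated language. -/
def LinGrammar.language {α N : Type} (G : LinGrammar α N) : Set (List α) :=
  {w | Gen G G.start w}

/-- The letters: the bits `zero`, `one`, and `row`, `fill`, `gate`. -/
inductive Letter
  | zero
  | one
  | row
  | fill
  | gate
  deriving DecidableEq

/-- The nonterminal symbols. -/
inductive Nt
  | choose
  | scan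
  | skip
  | carry
  | any
  deriving DecidableEq

open Letter Nt

/-- The grammar. -/
def gram : LinGrammar Letter Nt where
  start := choose
  rules :=
    [(choose, [zero], choose, []), (choose, [one], choose, []), (choose, [row], choose, []),
      (choose, [row], scan, []),
      (scan, [zero], scan, [fill]), (scan, [one], scan, [fill]), (scan, [one], skip, [fill]),
      (skip, [zero], skip, []), (skip, [one], skip, []), (skip, [row], skip, []),
      (skip, [gate], carry, []), (skip, [fill], any, []),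
      (carry, [zero], carry, []), (carry, [one], carry, []), (carry, [row], carry, [fill]),
      (carry, [row], scan, [gate]),
      (any, [zero], any, []), (any, [one], any, []), (any, [row], any, []),
      (any, [fill], any, []), (any, [gate], any, [])]
  stops := [(any, [])]

/-- `zero ≤ one`, and the other letters are incomparable. -/
def Letter.Le (a b : Letter) : Prop := a = b ∨ (a = zero ∧ b = one)

/-- A bit as a letter. -/
def bl (b : Bool) : Letter := if b then one else zero

/-- The words of a nonterminal symbol. -/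
abbrev G (A : Nt) (w : List Letter) : Prop := Gen gram A w

/-- Inversion. -/
theorem G_inv {A : Nt} {w : List Letter} (h : G A w) :
    (A = any ∧ w = []) ∨ ∃ (u : List Letter) (B : Nt) (v w' : List Letter),
      (A, u, B, v) ∈ gram.rules ∧ G B w' ∧ w = u ++ w' ++ v := by
  cases h with
  | stop h =>
    left
    simp only [gram, List.mem_singleton, Prod.mk.injEq] at h
    exact h
  | step h h' => exact Or.inr ⟨_, _, _, _, h, h', rfl⟩

theorem G_any (w : List Letter) : G any w := by
  induction w with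
  | nil => exact Gen.stop (by simp [gram])
  | cons a w ih =>
    have h : (any, [a], any, ([] : List Letter)) ∈ gram.rules := by
      cases a <;> simp [gram]
    have := Gen.step h ih
    simpa using this

theorem G_choose {w : List Letter} : G choose w ↔ ∃ a w', w = a :: w' ∧
    ((a = zero ∨ a = one ∨ a = row) ∧ G choose w' ∨ a = row ∧ G scan w') := by
  constructor
  · intro h
    rcases G_inv h with ⟨h1, _⟩ | ⟨u, B, v, w', h1, h2, h3⟩
    · exact absurd h1 (by decide)
    · simp only [gram, List.mem_cons, Prod.mk.injEq, reduceCtorEq, false_and, true_and, or_false,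
        List.not_mem_nil, false_or] at h1
      rcases h1 with ⟨rfl, rfl, rfl⟩ | ⟨rfl, rfl, rfl⟩ | ⟨rfl, rfl, rfl⟩ | ⟨rfl, rfl, rfl⟩ <;>
        refine ⟨_, w', by simpa using h3, ?_⟩ <;> simp [h2]
  · rintro ⟨a, w', rfl, ⟨h1, h2⟩ | ⟨rfl, h2⟩⟩
    · have h : (choose, [a], choose, ([] : List Letter)) ∈ gram.rules := by
        rcases h1 with rfl | rfl | rfl <;> simp [gram]
      simpa using Gen.step h h2
    · have h : (choose, [row], scan, ([] : List Letter)) ∈ gram.rules := by simp [gram]
      simpa using Gen.step h h2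

theorem G_scan {w : List Letter} : G scan w ↔ ∃ (b : Bool) (w' : List Letter),
    w = bl b :: (w' ++ [fill]) ∧ (G scan w' ∨ b = true ∧ G skip w') := by
  constructor
  · intro h
    rcases G_inv h with ⟨h1, _⟩ | ⟨u, B, v, w', h1, h2, h3⟩
    · exact absurd h1 (by decide)
    · simp only [gram, List.mem_cons, Prod.mk.injEq, reduceCtorEq, false_and, true_and, or_false,
        List.not_mem_nil, false_or] at h1
      rcases h1 with ⟨rfl, rfl, rfl⟩ | ⟨rfl, rfl, rfl⟩ | ⟨rfl, rfl, rfl⟩
      · exact ⟨false, w', by simpa [bl] using h3, by simp [h2]⟩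
      · exact ⟨true, w', by simpa [bl] using h3, by simp [h2]⟩
      · exact ⟨true, w', by simpa [bl] using h3, by simp [h2]⟩
  · rintro ⟨b, w', rfl, h2 | ⟨rfl, h2⟩⟩
    · have h : (scan, [bl b], scan, [fill]) ∈ gram.rules := by
        cases b <;> simp [gram, bl]
      simpa using Gen.step h h2
    · have h : (scan, [bl true], skip, [fill]) ∈ gram.rules := by simp [gram, bl]
      simpa using Gen.step h h2

theorem G_skip {w : List Letter} : G skip w ↔ ∃ a w', w = a :: w' ∧
    ((a = zero ∨ a = one ∨ a = row) ∧ G skip w' ∨ a = gate ∧ G carry w' ∨ a = fill) := by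
  constructor
  · intro h
    rcases G_inv h with ⟨h1, _⟩ | ⟨u, B, v, w', h1, h2, h3⟩
    · exact absurd h1 (by decide)
    · simp only [gram, List.mem_cons, Prod.mk.injEq, reduceCtorEq, false_and, true_and, or_false,
        List.not_mem_nil, false_or] at h1
      rcases h1 with ⟨rfl, rfl, rfl⟩ | ⟨rfl, rfl, rfl⟩ | ⟨rfl, rfl, rfl⟩ | ⟨rfl, rfl, rfl⟩ |
        ⟨rfl, rfl, rfl⟩ <;>
        refine ⟨_, w', by simpa using h3, ?_⟩ <;> simp [h2]
  · rintro ⟨a, w', rfl, ⟨h1, h2⟩ | ⟨rfl, h2⟩ | rfl⟩
    · have h : (skip, [a], skip, ([] : List Letter)) ∈ gram.rules := by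
        rcases h1 with rfl | rfl | rfl <;> simp [gram]
      simpa using Gen.step h h2
    · have h : (skip, [gate], carry, ([] : List Letter)) ∈ gram.rules := by simp [gram]
      simpa using Gen.step h h2
    · have h : (skip, [fill], any, ([] : List Letter)) ∈ gram.rules := by simp [gram]
      simpa using Gen.step h (G_any w')

theorem G_carry {w : List Letter} : G carry w ↔
    (∃ (b : Bool) (w' : List Letter), w = bl b :: w' ∧ G carry w') ∨
    (∃ w', w = row :: (w' ++ [fill]) ∧ G carry w') ∨
    (∃ w', w = row :: (w' ++ [gate]) ∧ G scan w') := by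
  constructor
  · intro h
    rcases G_inv h with ⟨h1, _⟩ | ⟨u, B, v, w', h1, h2, h3⟩
    · exact absurd h1 (by decide)
    · simp only [gram, List.mem_cons, Prod.mk.injEq, reduceCtorEq, false_and, true_and, or_false,
        List.not_mem_nil, false_or] at h1
      rcases h1 with ⟨rfl, rfl, rfl⟩ | ⟨rfl, rfl, rfl⟩ | ⟨rfl, rfl, rfl⟩ | ⟨rfl, rfl, rfl⟩
      · exact Or.inl ⟨false, w', by simpa [bl] using h3, h2⟩
      · exact Or.inl ⟨true, w', by simpa [bl] using h3, h2⟩
      · exact Or.inr (Or.inl ⟨w', by simpa using h3, h2⟩)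
      · exact Or.inr (Or.inr ⟨w', by simpa using h3, h2⟩)
  · rintro (⟨b, w', rfl, h2⟩ | ⟨w', rfl, h2⟩ | ⟨w', rfl, h2⟩)
    · have h : (carry, [bl b], carry, ([] : List Letter)) ∈ gram.rules := by
        cases b <;> simp [gram, bl]
      simpa using Gen.step h h2
    · have h : (carry, [row], carry, [fill]) ∈ gram.rules := by simp [gram]
      simpa using Gen.step h h2
    · have h : (carry, [row], scan, [gate]) ∈ gram.rules := by simp [gram]
      simpa using Gen.step h h2

theorem forall2_append_left {α : Type} {R : α → α → Prop} : ∀ {a b c : List α},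
    List.Forall₂ R (a ++ b) c → ∃ a' b', c = a' ++ b' ∧ List.Forall₂ R a a' ∧ List.Forall₂ R b b' := by
  intro a
  induction a with
  | nil => intro b c h; exact ⟨[], c, rfl, List.Forall₂.nil, h⟩
  | cons x a ih =>
    intro b c h
    rw [List.cons_append, List.forall₂_cons_left_iff] at h
    obtain ⟨y, c', h1, h2, rfl⟩ := h
    obtain ⟨a', b', rfl, h3, h4⟩ := ih h2
    exact ⟨y :: a', b', rfl, List.Forall₂.cons h1 h3, h4⟩

theorem rule_le {A B : Nt} {u v u' v' : List Letter} (h : (A, u, B, v) ∈ gram.rules)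
    (hu : List.Forall₂ Letter.Le u u') (hv : List.Forall₂ Letter.Le v v') :
    (A, u', B, v') ∈ gram.rules := by
  have h1 : ∀ c : Letter, c ≠ zero → ∀ w, List.Forall₂ Letter.Le [c] w → w = [c] := by
    intro c hc w hw
    rw [List.forall₂_cons_left_iff] at hw
    obtain ⟨y, c', h1, h2, rfl⟩ := hw
    rw [List.forall₂_nil_left_iff] at h2
    rcases h1 with h1 | h1
    · rw [h1, h2]
    · exact absurd h1.1 hc
  have h2 : ∀ w, List.Forall₂ Letter.Le [zero] w → w = [zero] ∨ w = [one] := by
    intro w hw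
    rw [List.forall₂_cons_left_iff] at hw
    obtain ⟨y, c', h1, h2, rfl⟩ := hw
    rw [List.forall₂_nil_left_iff] at h2
    rcases h1 with h1 | h1
    · left; rw [h1, h2]
    · right; rw [h1.2, h2]
  have h3 : ∀ w, List.Forall₂ Letter.Le [] w → w = [] := by
    intro w hw
    exact List.forall₂_nil_left_iff.1 hw
  simp only [gram, List.mem_cons, Prod.mk.injEq, List.not_mem_nil, or_false] at h
  rcases h with ⟨rfl, rfl, rfl, rfl⟩ | ⟨rfl, rfl, rfl, rfl⟩ | ⟨rfl, rfl, rfl, rfl⟩ |
    ⟨rfl, rfl, rfl, rfl⟩ | ⟨rfl, rfl, rfl, rfl⟩ | ⟨rfl, rfl, rfl, rfl⟩ | ⟨rfl, rfl, rfl, rfl⟩ |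
    ⟨rfl, rfl, rfl, rfl⟩ | ⟨rfl, rfl, rfl, rfl⟩ | ⟨rfl, rfl, rfl, rfl⟩ | ⟨rfl, rfl, rfl, rfl⟩ |
    ⟨rfl, rfl, rfl, rfl⟩ | ⟨rfl, rfl, rfl, rfl⟩ | ⟨rfl, rfl, rfl, rfl⟩ | ⟨rfl, rfl, rfl, rfl⟩ |
    ⟨rfl, rfl, rfl, rfl⟩ | ⟨rfl, rfl, rfl, rfl⟩ | ⟨rfl, rfl, rfl, rfl⟩ | ⟨rfl, rfl, rfl, rfl⟩ |
    ⟨rfl, rfl, rfl, rfl⟩ | ⟨rfl, rfl, rfl, rfl⟩ <;>
  first
  | (rw [h1 _ (by decide) _ hu, h3 _ hv]; simp [gram])
  | (rw [h1 _ (by decide) _ hu, h1 _ (by decide) _ hv]; simp [gram])
  | (rw [h3 _ hv]; rcases h2 _ hu with h4 | h4 <;> rw [h4] <;> simp [gram])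
  | (rw [h1 _ (by decide) _ hv]; rcases h2 _ hu with h4 | h4 <;> rw [h4] <;> simp [gram])

/-- The language is upward closed. -/
theorem G_mono {A : Nt} {w : List Letter} (h : G A w) :
    ∀ w' : List Letter, List.Forall₂ Letter.Le w w' → G A w' := by
  induction h with
  | stop h =>
    intro w' hw
    simp only [gram, List.mem_singleton, Prod.mk.injEq] at h
    obtain ⟨rfl, rfl⟩ := h
    exact G_any _
  | step h h' ih =>
    intro w' hw
    obtain ⟨a, b, rfl, h1, h2⟩ := forall2_append_left hw
    obtain ⟨c, d, rfl, h3, h4⟩ := forall2_append_left h1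
    exact Gen.step (rule_le h h3 h2) (ih d h4)

end Pool.Agent.HM94.LIN
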