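import Pool.Agent.HM94.LIN.Word
import Pool.Agent.HM94.NL.Class

/-!
# Layered graphs as words; machines which read words
-/

set_option autoImplicit false

namespace Pool.Agent.HM94.LIN

open Letter Nt Finset Pool.Agent.HM94.NL

variable {β : Type}

/-- The rows of a matrix, each in reversed order. -/
def rows {m : ℕ} (g : Fin m → Fin m → β) : List (List β) :=
  List.ofFn fun a => List.ofFn fun i => g a (Fin.rev i)

theorem rows_length {m : ℕ} (g : Fin m → Fin m → β) : (rows g).length = m := by
  simp [rows]

theorem rows_length' {m : ℕ} (g : Fin m → Fin m → β) {a : ℕ} (h : a < (rows g).length) :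
    ((rows g)[a]).length = m := by
  simp [rows]

theorem rows_get {m : ℕ} (g : Fin m → Fin m → β) (a i : Fin m) (h : (a : ℕ) < (rows g).length)
    (hi : (i : ℕ) < ((rows g)[(a : ℕ)]).length) : ((rows g)[(a : ℕ)])[(i : ℕ)] = g a (Fin.rev i) := by
  simp [rows]

theorem rows_path (x : β → Bool) (m n : ℕ) : ∀ (f : Fin (n + 1) → Fin m → Fin m → β) (a : ℕ),
    Path x m (rows (f 0)) (List.ofFn fun t : Fin n => rows (f t.succ)) a ↔
      ∃ v : Fin (n + 2) → Fin m, (v 0 : ℕ) = a ∧
        ∀ t : Fin (n + 1), x (f t (v t.castSucc) (v t.succ)) = true := by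
  induction n with
  | zero =>
    intro f a
    rw [List.ofFn_zero]
    unfold Path
    constructor
    · rintro ⟨i, h, hi, h1⟩
      have ha : a < m := by rw [rows_length] at h; exact h
      have hi' : i < m := by rw [rows_length'] at hi; exact hi
      refine ⟨![⟨a, ha⟩, Fin.rev ⟨i, hi'⟩], rfl, fun t => ?_⟩
      have ht : t = 0 := Fin.ext (by omega)
      subst ht
      rw [rows_get (f 0) ⟨a, ha⟩ ⟨i, hi'⟩ h hi] at h1
      exact h1
    · rintro ⟨v, hv, h⟩
      subst hv
      refine ⟨(Fin.rev (v 1) : Fin m), ?_, ?_, ?_⟩
      · rw [rows_length]; exact (v 0).2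
      · rw [rows_length']; exact (Fin.rev (v 1)).2
      · have := h 0
        rw [rows_get, Fin.rev_rev]
        exact this
  | succ n ih =>
    intro f a
    rw [List.ofFn_succ]
    unfold Path
    have hih := ih (fun t => f t.succ)
    constructor
    · rintro ⟨i, h, hi, h1, h2⟩
      have ha : a < m := by rw [rows_length] at h; exact h
      have hi' : i < m := by rw [rows_length'] at hi; exact hi
      obtain ⟨v, hv, h3⟩ := (hih _).1 h2
      refine ⟨Fin.cons ⟨a, ha⟩ v, rfl, fun t => ?_⟩
      refine Fin.cases ?_ (fun t => ?_) t
      · have h4 : v 0 = Fin.rev ⟨i, hi'⟩ := by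
          apply Fin.ext
          rw [hv, Fin.val_rev]
          simp only
          omega
        rw [Fin.castSucc_zero, Fin.cons_zero, Fin.cons_succ, h4]
        rw [rows_get (f 0) ⟨a, ha⟩ ⟨i, hi'⟩ h hi] at h1
        exact h1
      · have h4 := h3 t
        rw [Fin.castSucc_succ, Fin.cons_succ, Fin.cons_succ]
        exact h4
    · rintro ⟨v, hv, h⟩
      subst hv
      refine ⟨(Fin.rev (v 1) : Fin m), ?_, ?_, ?_, ?_⟩
      · rw [rows_length]; exact (v 0).2
      · rw [rows_length']; exact (Fin.rev (v 1)).2
      · have := h 0
        rw [rows_get, Fin.rev_rev]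
        exact this
      · refine (hih _).2 ⟨fun t => v t.succ, ?_, fun t => ?_⟩
        · rw [Fin.val_rev]
          have h1 := (v 1).2
          simp only [Fin.succ_zero_eq_one]
          omega
        · have := h t.succ
          rw [Fin.castSucc_succ] at this
          exact this

/-- The length of the word without padding. -/
def baseLen (n m : ℕ) : ℕ := (n + 1) * (m * m + 2 * m) + 2 * n + 1

/-- The word of the layered graphs with the `n + 1` layers of edges. -/
def gword (n m N : ℕ) : List (Edge (n + 1) m ⊕ Letter) :=
  wordT m (List.replicate (N - baseLen n m) (Sum.inr fill)) (rows fun a b => (0, a, b))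
    (List.ofFn fun t : Fin n => rows fun a b => (t.succ, a, b))

theorem rowsT_rows {m : ℕ} (g : Fin m → Fin m → β) : (rowsT (rows g)).length = m * (m + 1) := by
  unfold rowsT rows
  rw [List.length_flatMap]
  simp only [List.length_cons, List.length_map, List.map_ofFn, Function.comp_def, List.length_ofFn,
    List.ofFn_const, List.sum_replicate, smul_eq_mul]

theorem tailT_length {m : ℕ} (pad : List (β ⊕ Letter)) (n : ℕ) :
    ∀ g : Fin n → Fin m → Fin m → β,
    (tailT m pad (List.ofFn fun t => rows (g t))).length =
      n * (m * m + 2 * m) + 2 * n + 1 + pad.length := by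
  induction n with
  | zero => intro g; simp [tailT]; omega
  | succ n ih =>
    intro g
    rw [List.ofFn_succ]
    unfold tailT
    simp only [List.length_cons, List.length_append, rowsT_rows, ih, List.length_replicate,
      List.length_nil]
    ring

theorem gword_length {n m N : ℕ} (h : baseLen n m ≤ N) : (gword n m N).length = N := by
  unfold gword wordT
  simp only [List.length_append, rowsT_rows, tailT_length, List.length_replicate]
  unfold baseLen at h ⊢
  have h1 : (n + 1) * (m * m + 2 * m) = n * (m * m + 2 * m) + m * (m + 1) + m := by ring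
  omega

theorem gword_language (n m N : ℕ) (x : Edge (n + 1) m → Bool) :
    (gword n m N).map (ev x) ∈ gram.language ↔ conn x = true := by
  unfold gword
  rw [word_path x m _ _ _ ?_ ?_]
  · have h := rows_path x m n (fun t a b => (t, a, b))
    unfold conn
    rw [decide_eq_true_eq]
    constructor
    · rintro ⟨a, ha⟩
      obtain ⟨v, _, hv⟩ := (h a).1 ha
      exact ⟨v, hv⟩
    · rintro ⟨v, hv⟩
      exact ⟨v 0, (h _).2 ⟨v, rfl, hv⟩⟩
  · intro r hr
    unfold rows at hr
    rw [List.mem_ofFn] at hr
    obtain ⟨a, rfl⟩ := hr
    exact List.length_ofFn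
  · intro rs' hrs' r hr
    rw [List.mem_ofFn] at hrs'
    obtain ⟨t, rfl⟩ := hrs'
    unfold rows at hr
    rw [List.mem_ofFn] at hr
    obtain ⟨a, rfl⟩ := hr
    exact List.length_ofFn

/-- The letters of the word. -/
def gletter {n m N : ℕ} (h : baseLen n m ≤ N) (i : Fin N) : Edge (n + 1) m ⊕ Letter :=
  (gword n m N)[(i : ℕ)]'(by rw [gword_length h]; exact i.2)

theorem gletter_language {n m N : ℕ} (h : baseLen n m ≤ N) (x : Edge (n + 1) m → Bool) :
    List.ofFn (fun i => ev x (gletter h i)) ∈ gram.language ↔ conn x = true := by
  rw [← gword_language n m N x]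
  have he : List.ofFn (fun i => ev x (gletter h i)) = (gword n m N).map (ev x) := by
    apply List.ext_getElem
    · rw [List.length_ofFn, List.length_map, gword_length h]
    · intro i h1 h2
      rw [List.getElem_ofFn, List.getElem_map]
      rfl
  rw [he]

/-- A machine which reads words of length `n` with the letters `α`: the first state, the position
which is read at the time `t` in the state `σ`, the next state for the letter which is read, the
number of steps, the accepting states `Q`. -/
structure WordMachine (α : Type) (n : ℕ) (Q : Type) where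
  start : Q
  query : ℕ → Q → Fin n
  next : ℕ → Q → α → Q
  len : ℕ
  acc : Q → Bool

variable {α Q : Type} {n : ℕ}

/-- The state after `t` steps. -/
def WordMachine.st (M : WordMachine α n Q) (w : Fin n → α) : ℕ → Q
  | 0 => M.start
  | t + 1 => M.next t (M.st w t) (w (M.query t (M.st w t)))

/-- The result. -/
def WordMachine.out (M : WordMachine α n Q) (w : Fin n → α) : Bool := M.acc (M.st w M.len)

/-- The machine is monotone, for the relation `le` on the letters: for all words the next state is a
monotone function of the state; it is a monotone function of the letter which is read; the set of the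
accepting states is upward closed. -/
structure WordMachine.Mono [Preorder Q] (M : WordMachine α n Q) (le : α → α → Prop) : Prop where
  state : ∀ t < M.len, ∀ (w : Fin n → α) (σ τ : Q), σ ≤ τ →
    M.next t σ (w (M.query t σ)) ≤ M.next t τ (w (M.query t τ))
  letter : ∀ t < M.len, ∀ (σ : Q) (a b : α), le a b → M.next t σ a ≤ M.next t σ b
  acc : ∀ σ τ : Q, σ ≤ τ → M.acc σ = true → M.acc τ = true

/-- A machine for words, applied to a word with letters which depend on input bits. -/
def WordMachine.sub {ι : Type} (M : WordMachine Letter n Q) (d : ι) (φ : Fin n → ι ⊕ Letter) :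
    Machine ι Q where
  start := M.start
  query t σ := match φ (M.query t σ) with
    | .inl i => i
    | .inr _ => d
  next t σ b := match φ (M.query t σ) with
    | .inl _ => M.next t σ (bl b)
    | .inr c => M.next t σ c
  len := M.len
  acc := M.acc

theorem WordMachine.sub_next {ι : Type} (M : WordMachine Letter n Q) (d : ι)
    (φ : Fin n → ι ⊕ Letter) (t : ℕ) (σ : Q) (x : ι → Bool) :
    (M.sub d φ).next t σ (x ((M.sub d φ).query t σ)) = M.next t σ (ev x (φ (M.query t σ))) := by
  rcases hφ : φ (M.query t σ) with i | c
  · simp [WordMachine.sub, ev, hφ]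
  · simp [WordMachine.sub, ev, hφ]

theorem WordMachine.sub_st {ι : Type} (M : WordMachine Letter n Q) (d : ι)
    (φ : Fin n → ι ⊕ Letter) (x : ι → Bool) (t : ℕ) :
    (M.sub d φ).st x t = M.st (fun i => ev x (φ i)) t := by
  induction t with
  | zero => rfl
  | succ t ih =>
    change (M.sub d φ).next t ((M.sub d φ).st x t) (x ((M.sub d φ).query t ((M.sub d φ).st x t))) = _
    rw [WordMachine.sub_next, ih]
    rfl

theorem WordMachine.sub_out {ι : Type} (M : WordMachine Letter n Q) (d : ι)
    (φ : Fin n → ι ⊕ Letter) (x : ι → Bool) :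
    (M.sub d φ).out x = M.out (fun i => ev x (φ i)) := by
  unfold Machine.out WordMachine.out
  rw [WordMachine.sub_st]
  rfl

theorem WordMachine.sub_mono {ι : Type} [Preorder Q] {M : WordMachine Letter n Q}
    (hM : M.Mono Letter.Le) (d : ι) (φ : Fin n → ι ⊕ Letter) (H : Set ι) :
    (M.sub d φ).MonoIn H where
  state t ht x σ τ hστ := by
    rw [WordMachine.sub_next, WordMachine.sub_next]
    exact hM.state t ht (fun i => ev x (φ i)) σ τ hστ
  input t ht σ _ := by
    unfold WordMachine.sub
    simp only
    rcases hφ : φ (M.query t σ) with i | c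
    · exact hM.letter t ht σ _ _ (Or.inr ⟨rfl, rfl⟩)
    · exact le_rfl
  acc := hM.acc

end Pool.Agent.HM94.LIN
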