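import Pool.Agent.HM94.LIN.Graph

/-!
# The lower bound for monotone machines which decide the language
-/

set_option autoImplicit false

namespace Pool.Agent.HM94.LIN

open Finset Filter Pool.Agent.HM94.NL

theorem main_half (ε : ℝ) (hε0 : 0 < ε) (hε1 : ε ≤ 1 / 2) : ∃ c : ℝ, 0 < c ∧ ∀ᶠ n : ℕ in atTop,
    ∀ (S e len : ℕ) {Ω : Type} [Fintype Ω] (μ : Ω → ℝ), (∀ ω, 0 ≤ μ ω) → ∑ ω, μ ω = 1 →
      ∀ {Q : Ω → Type} [∀ ω, Preorder (Q ω)] (M : (ω : Ω) → WordMachine Letter n (Q ω)),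
      (∀ ω, (M ω).Mono Letter.Le) → (∀ ω, SpaceLE (Q ω) S) → (∀ ω, (M ω).len ≤ len) →
      (S : ℝ) ≤ (n : ℝ) ^ (1 / 2 - ε) → (2 : ℝ) ^ e ≤ (n : ℝ) ^ c →
      (∀ w w' : Fin n → Letter, List.ofFn w ∈ gram.language → List.ofFn w' ∉ gram.language →
        (∑ ω, if (M ω).out w' = true then μ ω else 0) + 1 / 2 ^ e ≤
          ∑ ω, if (M ω).out w = true then μ ω else 0) →
      (n : ℝ) ^ (c * Real.logb 2 n) ≤ len := by
  obtain ⟨D0, hD0⟩ := exists_nat_ge (2 / ε)
  obtain ⟨D, hD⟩ : ∃ D, D = D0 + 4 := ⟨_, rfl⟩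
  have hD4 : 4 ≤ D := by omega
  have hDr : (4 : ℝ) ≤ D := by exact_mod_cast hD4
  have hDε : 2 ≤ ε * D := by
    rw [div_le_iff₀ hε0] at hD0
    have : (D0 : ℝ) ≤ D := by rw [hD]; push_cast; linarith
    nlinarith
  refine ⟨ε / (64 * D), by positivity, ?_⟩
  obtain ⟨E, hE⟩ := exists_nat_ge (8 / ε)
  have hbt : Tendsto (fun n : ℕ => (Nat.log 2 n - Nat.log 2 n / D - 2) / 2) atTop atTop := by
    refine tendsto_atTop.2 fun b => ?_
    filter_upwards [tendsto_log2.eventually (eventually_ge_atTop (4 * b + 100))] with n hn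
    have h1 : Nat.log 2 n / D ≤ Nat.log 2 n / 4 := Nat.div_le_div_left hD4 (by norm_num)
    omega
  have hpow : Tendsto (fun n : ℕ => 2 ^ ((Nat.log 2 n - Nat.log 2 n / D - 2) / 2)) atTop atTop :=
    (tendsto_pow_atTop_atTop_of_one_lt (by norm_num : (1 : ℕ) < 2)).comp hbt
  filter_upwards [hpow.eventually (asym ε (ε / 2) (by linarith) (by linarith) (by linarith)),
    tendsto_log2.eventually (eventually_ge_atTop (2 * D + E + 100)), eventually_ge_atTop 1]
    with n h1 h2 h3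
  intro S e len Ω _ μ hμ0 hμ1 Q _ M hM hQ hlen hS he hadv
  obtain ⟨lam, hlam⟩ : ∃ lam, lam = Nat.log 2 n := ⟨_, rfl⟩
  obtain ⟨k, hk⟩ : ∃ k, k = lam / D := ⟨_, rfl⟩
  obtain ⟨b, hb⟩ : ∃ b, b = (lam - k - 2) / 2 := ⟨_, rfl⟩
  rw [← hlam, ← hk, ← hb] at h1
  rw [← hlam] at h2
  have hk4 : k ≤ lam / 4 := by
    rw [hk]; exact Nat.div_le_div_left hD4 (by norm_num)
  have hkD : k * D ≤ lam := by
    rw [hk]; exact Nat.div_mul_le_self _ _
  have hkD' : lam < (k + 1) * D := by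
    rw [hk, mul_comm]
    exact Nat.lt_mul_div_succ _ (by omega)
  have hkb : 2 * b + k + 2 ≤ lam := by omega
  have hkb' : lam ≤ 2 * b + k + 3 := by omega
  have hb4 : lam ≤ 4 * b := by omega
  have hk1 : 1 ≤ k := by
    by_contra hc
    have : k = 0 := by omega
    rw [this] at hkD'
    omega
  have hkb1 : k ≤ b := by omega
  have hn : 2 ^ lam ≤ n := by rw [hlam]; exact Nat.pow_log_le_self 2 (by omega)
  have hnlt : n < 2 ^ (lam + 1) := by
    rw [hlam]; exact Nat.lt_pow_succ_log_self (by norm_num) n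
  -- the reals
  have hlamR : (2 * D + 8 / ε + 100 : ℝ) ≤ lam := by
    have : ((2 * D + E + 100 : ℕ) : ℝ) ≤ lam := by exact_mod_cast h2
    push_cast at this
    linarith
  have hlam8 : 8 ≤ ε * lam := by
    have h4 : 8 / ε ≤ lam := by
      have : (0 : ℝ) ≤ D := by positivity
      linarith
    rw [div_le_iff₀ hε0] at h4
    linarith
  have hlam0 : (100 : ℝ) ≤ lam := by
    have h4 : 0 ≤ 8 / ε := by positivity
    linarith
  have hkR : (k : ℝ) * D ≤ lam := by exact_mod_cast hkD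
  have hkR2 : (lam : ℝ) ≤ 2 * (k * D) := by
    have h4 : (lam : ℝ) ≤ (k + 1) * D := by exact_mod_cast hkD'.le
    have h5 : (1 : ℝ) ≤ k := by exact_mod_cast hk1
    have h6 : (D : ℝ) ≤ k * D := by nlinarith
    linarith
  have hbR : (lam : ℝ) ≤ 2 * b + k + 3 := by exact_mod_cast hkb'
  have hb4R : (lam : ℝ) ≤ 4 * b := by exact_mod_cast hb4
  have hkε : (k : ℝ) * 2 ≤ ε * lam := by
    have h4 : (k : ℝ) * 2 ≤ k * (ε * D) := mul_le_mul_of_nonneg_left hDε (by positivity)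
    have h5 : (k : ℝ) * (ε * D) = ε * (k * D) := by ring
    have h6 : ε * (k * D) ≤ ε * lam := mul_le_mul_of_nonneg_left hkR hε0.le
    linarith
  have hn1 : (1 : ℝ) ≤ n := by exact_mod_cast h3
  have hn0 : (0 : ℝ) < n := by linarith
  obtain ⟨l, hl⟩ : ∃ l, l = Real.logb 2 (n : ℝ) := ⟨_, rfl⟩
  have hnl : (n : ℝ) = 2 ^ l := by
    rw [hl, Real.rpow_logb (by norm_num) (by norm_num) hn0]
  have hl0 : 0 ≤ l := by rw [hl]; exact Real.logb_nonneg (by norm_num) hn1
  have hl1 : l ≤ lam + 1 := by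
    rw [hl, Real.logb_le_iff_le_rpow (by norm_num) hn0]
    have h4 : (n : ℝ) ≤ 2 ^ (lam + 1) := by exact_mod_cast hnlt.le
    have h5 : (2 : ℝ) ^ ((lam : ℝ) + 1) = 2 ^ (lam + 1) := by
      rw [← Real.rpow_natCast]; push_cast; rfl
    rw [h5]
    exact h4
  have hmR : (((2 ^ b : ℕ) : ℕ) : ℝ) = (2 : ℝ) ^ (b : ℝ) := by
    push_cast
    rw [Real.rpow_natCast]
  have hlogb : Real.logb 2 (((2 ^ b : ℕ) : ℕ) : ℝ) = b := by
    rw [hmR, Real.logb_rpow (by norm_num) (by norm_num)]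
  -- the graph
  obtain ⟨T, hT⟩ : ∃ T, 2 ^ k = T + 1 := ⟨2 ^ k - 1, by
    have : 1 ≤ 2 ^ k := Nat.one_le_two_pow
    omega⟩
  have hT2 : 2 ≤ T + 1 := by
    rw [← hT]
    calc 2 = 2 ^ 1 := by norm_num
      _ ≤ 2 ^ k := Nat.pow_le_pow_right (by norm_num) hk1
  have hTm : T + 1 ≤ 2 ^ b := by
    rw [← hT]; exact Nat.pow_le_pow_right (by norm_num) hkb1
  have hbase : baseLen T (2 ^ b) ≤ n := by
    refine le_trans ?_ hn
    unfold baseLen
    calc (T + 1) * (2 ^ b * 2 ^ b + 2 * 2 ^ b) + 2 * T + 1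
        ≤ (T + 1) * (2 ^ b * 2 ^ b + 2 * 2 ^ b) + (T + 1) * 2 := by omega
      _ = (T + 1) * (2 ^ b * 2 ^ b + 2 * 2 ^ b + 2) := by ring
      _ ≤ (T + 1) * (4 * (2 ^ b * 2 ^ b)) := by
          refine Nat.mul_le_mul_left _ ?_
          have h4 : 2 ≤ 2 ^ b := hT2.trans hTm
          nlinarith
      _ = 2 ^ (2 * b + k + 2) := by rw [← hT]; ring
      _ ≤ 2 ^ lam := Nat.pow_le_pow_right (by norm_num) hkb
  have hd : Edge (T + 1) (2 ^ b) :=
    (⟨0, by omega⟩, ⟨0, by positivity⟩, ⟨0, by positivity⟩)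
  have h4 := h1 (T + 1) univ (by rw [card_univ, Fintype.card_fin]; exact hT2)
    (by rw [card_univ, Fintype.card_fin]; exact hTm) S e len μ hμ0 hμ1
    (fun ω => (M ω).sub hd (gletter hbase)) (fun ω => WordMachine.sub_mono (hM ω) hd _ _) hQ hlen
    ?_ ?_ ?_
  · rw [hlogb, card_univ, Fintype.card_fin, ← hT] at h4
    refine le_trans ?_ h4
    rw [← hl, hnl, ← Real.rpow_mul (by norm_num)]
    push_cast
    rw [← Real.rpow_natCast, ← Real.rpow_mul (by norm_num)]
    refine Real.rpow_le_rpow_of_exponent_le (by norm_num) ?_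
    have h5 : l * (ε / (64 * D) * l) ≤ ε / (64 * D) * (4 * (lam * lam)) := by
      have h6 : l ≤ 2 * lam := by linarith
      have h7 : l * l ≤ (2 * lam) * (2 * lam) := mul_le_mul h6 h6 hl0 (by linarith)
      have h8 : l * (ε / (64 * D) * l) = ε / (64 * D) * (l * l) := by ring
      rw [h8]
      refine mul_le_mul_of_nonneg_left ?_ (by positivity)
      linarith
    refine h5.trans ?_
    have h6 : (lam : ℝ) * lam ≤ (2 * (k * D)) * (4 * b) :=
      mul_le_mul hkR2 hb4R (by positivity) (by positivity)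
    have h7 : ε / (64 * D) * (4 * (lam * lam)) ≤ ε / (64 * D) * (4 * ((2 * (k * D)) * (4 * b))) := by
      refine mul_le_mul_of_nonneg_left ?_ (by positivity)
      linarith
    refine h7.trans (le_of_eq ?_)
    field_simp
    ring
  · -- space
    rw [hmR, ← Real.rpow_mul (by norm_num)]
    refine hS.trans ?_
    rw [hnl, ← Real.rpow_mul (by norm_num)]
    refine Real.rpow_le_rpow_of_exponent_le (by norm_num) ?_
    have h5 : l * (1 / 2 - ε) ≤ (lam + 1) * (1 / 2 - ε) :=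
      mul_le_mul_of_nonneg_right hl1 (by linarith)
    have h6 : ((lam : ℝ) * (1 - ε / 2) - 3) / 2 ≤ b := by nlinarith
    have h7 : ((lam : ℝ) * (1 - ε / 2) - 3) / 2 * (1 - ε) ≤ b * (1 - ε) :=
      mul_le_mul_of_nonneg_right h6 (by linarith)
    have h8 : (0 : ℝ) ≤ lam * (ε * ε) := by positivity
    nlinarith
  · -- advantage
    rw [hmR, ← Real.rpow_mul (by norm_num)]
    refine he.trans ?_
    rw [hnl, ← Real.rpow_mul (by norm_num)]
    refine Real.rpow_le_rpow_of_exponent_le (by norm_num) ?_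
    have h5 : ε / (64 * D) ≤ ε / 256 := by
      rw [div_le_div_iff₀ (by positivity) (by norm_num)]
      nlinarith
    have h6 : l * (ε / (64 * D)) ≤ (2 * lam) * (ε / 256) :=
      mul_le_mul (by linarith) h5 (by positivity) (by linarith)
    refine h6.trans ?_
    nlinarith
  · intro x x' hx hx'
    have h5 : conn x' = false := by
      by_contra hc
      rw [Bool.not_eq_false] at hc
      have := uconn_of_conn hc
      rw [hx'] at this
      exact absurd this (by simp)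
    have h6 := hadv (fun i => ev x (gletter hbase i)) (fun i => ev x' (gletter hbase i))
      ((gletter_language hbase x).2 hx) (by
        intro hc
        have := (gletter_language hbase x').1 hc
        rw [h5] at this
        exact absurd this (by simp))
    simp only [WordMachine.sub_out]
    exact h6

theorem main (ε : ℝ) (hε0 : 0 < ε) : ∃ c : ℝ, 0 < c ∧ ∀ᶠ n : ℕ in atTop,
    ∀ (S e len : ℕ) {Ω : Type} [Fintype Ω] (μ : Ω → ℝ), (∀ ω, 0 ≤ μ ω) → ∑ ω, μ ω = 1 →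
      ∀ {Q : Ω → Type} [∀ ω, Preorder (Q ω)] (M : (ω : Ω) → WordMachine Letter n (Q ω)),
      (∀ ω, (M ω).Mono Letter.Le) → (∀ ω, SpaceLE (Q ω) S) → (∀ ω, (M ω).len ≤ len) →
      (S : ℝ) ≤ (n : ℝ) ^ (1 / 2 - ε) → (2 : ℝ) ^ e ≤ (n : ℝ) ^ c →
      (∀ w w' : Fin n → Letter, List.ofFn w ∈ gram.language → List.ofFn w' ∉ gram.language →
        (∑ ω, if (M ω).out w' = true then μ ω else 0) + 1 / 2 ^ e ≤
          ∑ ω, if (M ω).out w = true then μ ω else 0) →
      (n : ℝ) ^ (c * Real.logb 2 n) ≤ len := by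
  rcases le_or_gt ε (1 / 2) with h | h
  · exact main_half ε hε0 h
  · obtain ⟨c, hc0, hc⟩ := main_half (1 / 2) (by norm_num) le_rfl
    refine ⟨c, hc0, ?_⟩
    filter_upwards [hc, eventually_ge_atTop 1] with n h1 h2
    intro S e len Ω _ μ hμ0 hμ1 Q _ M hM hQ hlen hS he hadv
    refine h1 S e len μ hμ0 hμ1 M hM hQ hlen (hS.trans ?_) he hadv
    exact Real.rpow_le_rpow_of_exponent_le (by exact_mod_cast h2) (by linarith)

end Pool.Agent.HM94.LIN
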