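import Pool.Agent.HM94.LIN.Gram

/-!
# The word of a layered graph

For every layer of edges there is a region with one row for every vertex; the row of a vertex has one
cell for every vertex of the next level, in reversed order.
-/

set_option autoImplicit false

namespace Pool.Agent.HM94.LIN

open Letter Nt

variable {β : Type}

/-- The letters `bl (x e)` and the fixed letters. -/
def ev (x : β → Bool) : β ⊕ Letter → Letter := Sum.elim (fun e => bl (x e)) id

/-- The rows of a region. -/
def rowsT (rs : List (List β)) : List (β ⊕ Letter) :=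
  rs.flatMap fun r => Sum.inr row :: r.map Sum.inl

/-- The part behind a region; `m` is the number of vertices of a level, `pad` is arbitrary. -/
def tailT (m : ℕ) (pad : List (β ⊕ Letter)) : List (List (List β)) → List (β ⊕ Letter)
  | [] => Sum.inr fill :: pad
  | rs :: regs => Sum.inr gate ::
      (rowsT rs ++ (tailT m pad regs ++ (List.replicate m (Sum.inr fill) ++ [Sum.inr gate])))

/-- The word of a list of regions. -/
def wordT (m : ℕ) (pad : List (β ⊕ Letter)) (rs : List (List β)) (regs : List (List (List β))) :
    List (β ⊕ Letter) :=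
  rowsT rs ++ (tailT m pad regs ++ List.replicate m (Sum.inr fill))

/-- A word does not start with a bit or `row`. -/
def Stop (X : List Letter) : Prop := ∃ Y, X = gate :: Y ∨ X = fill :: Y

/-- A word does not start with a bit. -/
def Brk (X : List Letter) : Prop := ∃ Y, X = gate :: Y ∨ X = fill :: Y ∨ X = row :: Y

theorem bl_ne_row (b : Bool) : bl b ≠ row := by cases b <;> simp [bl]
theorem bl_ne_gate (b : Bool) : bl b ≠ gate := by cases b <;> simp [bl]
theorem bl_ne_fill (b : Bool) : bl b ≠ fill := by cases b <;> simp [bl]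
theorem bl_bit (b : Bool) : bl b = zero ∨ bl b = one := by cases b <;> simp [bl]

theorem tail_stop (x : β → Bool) (m : ℕ) (pad : List (β ⊕ Letter)) (regs : List (List (List β)))
    (Z : List Letter) : Stop ((tailT m pad regs).map (ev x) ++ Z) := by
  cases regs with
  | nil => exact ⟨_, Or.inr rfl⟩
  | cons rs regs => exact ⟨_, Or.inl rfl⟩

theorem choose_bits (x : β → Bool) (r : List β) (X : List Letter) :
    G choose ((r.map Sum.inl).map (ev x) ++ X) ↔ G choose X := by
  induction r with
  | nil => simp
  | cons e r ih =>
    rw [G_choose]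
    simp only [List.map_cons, List.cons_append]
    constructor
    · rintro ⟨a, w', h1, h2⟩
      rw [List.cons.injEq] at h1
      obtain ⟨rfl, rfl⟩ := h1
      rcases h2 with ⟨_, h2⟩ | ⟨h2, _⟩
      · exact ih.1 h2
      · exact absurd h2 (bl_ne_row _)
    · intro h
      refine ⟨_, _, rfl, Or.inl ⟨?_, ih.2 h⟩⟩
      rcases bl_bit (x e) with h1 | h1
      · exact Or.inl h1
      · exact Or.inr (Or.inl h1)

theorem skip_bits (x : β → Bool) (r : List β) (X : List Letter) :
    G skip ((r.map Sum.inl).map (ev x) ++ X) ↔ G skip X := by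
  induction r with
  | nil => simp
  | cons e r ih =>
    rw [G_skip]
    simp only [List.map_cons, List.cons_append]
    constructor
    · rintro ⟨a, w', h1, h2⟩
      rw [List.cons.injEq] at h1
      obtain ⟨rfl, rfl⟩ := h1
      rcases h2 with ⟨_, h2⟩ | ⟨h2, _⟩ | h2
      · exact ih.1 h2
      · exact absurd h2 (bl_ne_gate _)
      · exact absurd h2 (bl_ne_fill _)
    · intro h
      refine ⟨_, _, rfl, Or.inl ⟨?_, ih.2 h⟩⟩
      rcases bl_bit (x e) with h1 | h1
      · exact Or.inl h1
      · exact Or.inr (Or.inl h1)

theorem carry_bits (x : β → Bool) (r : List β) (X : List Letter) :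
    G carry ((r.map Sum.inl).map (ev x) ++ X) ↔ G carry X := by
  induction r with
  | nil => simp
  | cons e r ih =>
    rw [G_carry]
    simp only [List.map_cons, List.cons_append]
    constructor
    · rintro (⟨b, w', h1, h2⟩ | ⟨w', h1, h2⟩ | ⟨w', h1, h2⟩)
      · rw [List.cons.injEq] at h1
        obtain ⟨_, rfl⟩ := h1
        exact ih.1 h2
      · rw [List.cons.injEq] at h1
        exact absurd h1.1 (bl_ne_row _)
      · rw [List.cons.injEq] at h1
        exact absurd h1.1 (bl_ne_row _)
    · intro h
      exact Or.inl ⟨_, _, rfl, ih.2 h⟩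

theorem rowsT_cons (r : List β) (rs : List (List β)) :
    rowsT (r :: rs) = Sum.inr row :: (r.map Sum.inl ++ rowsT rs) := by
  simp [rowsT, List.flatMap_cons]

theorem skip_rows (x : β → Bool) (rs : List (List β)) (X : List Letter) :
    G skip ((rowsT rs).map (ev x) ++ X) ↔ G skip X := by
  induction rs with
  | nil => simp [rowsT]
  | cons r rs ih =>
    rw [rowsT_cons, List.map_cons, List.map_append, List.cons_append, List.append_assoc, G_skip]
    constructor
    · rintro ⟨a, w', h1, h2⟩
      rw [List.cons.injEq] at h1
      obtain ⟨rfl, rfl⟩ := h1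
      rcases h2 with ⟨_, h2⟩ | ⟨h2, _⟩ | h2
      · exact ih.1 ((skip_bits x r _).1 h2)
      · exact absurd h2 (by simp [ev])
      · exact absurd h2 (by simp [ev])
    · intro h
      exact ⟨_, _, rfl, Or.inl ⟨Or.inr (Or.inr rfl), (skip_bits x r _).2 (ih.2 h)⟩⟩

theorem choose_stop {X : List Letter} (hX : Stop X) : ¬ G choose X := by
  intro h
  obtain ⟨Y, hY⟩ := hX
  rw [G_choose] at h
  obtain ⟨a, w', h1, h2⟩ := h
  rcases hY with rfl | rfl <;> rw [List.cons.injEq] at h1 <;> obtain ⟨rfl, rfl⟩ := h1 <;>
    simp at h2

theorem scan_brk {X : List Letter} (hX : Brk X) : ¬ G scan X := by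
  intro h
  obtain ⟨Y, hY⟩ := hX
  rw [G_scan] at h
  obtain ⟨b, w', h1, h2⟩ := h
  rcases hY with rfl | rfl | rfl <;> rw [List.cons.injEq] at h1
  · exact bl_ne_gate b h1.1.symm
  · exact bl_ne_fill b h1.1.symm
  · exact bl_ne_row b h1.1.symm

theorem carry_stop {X : List Letter} (hX : Stop X) : ¬ G carry X := by
  intro h
  obtain ⟨Y, hY⟩ := hX
  rw [G_carry] at h
  rcases h with ⟨b, w', h1, h2⟩ | ⟨w', h1, h2⟩ | ⟨w', h1, h2⟩
  · rcases hY with rfl | rfl <;> rw [List.cons.injEq] at h1
    · exact bl_ne_gate b h1.1.symm
    · exact bl_ne_fill b h1.1.symm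
  · rcases hY with rfl | rfl <;> rw [List.cons.injEq] at h1 <;> exact absurd h1.1 (by simp)
  · rcases hY with rfl | rfl <;> rw [List.cons.injEq] at h1 <;> exact absurd h1.1 (by simp)

/-- The first row is chosen. -/
theorem choose_rows (x : β → Bool) (rs : List (List β)) {X : List Letter} (hX : Stop X) :
    G choose ((rowsT rs).map (ev x) ++ X) ↔ ∃ k, ∃ h : k < rs.length,
      G scan ((rs[k].map Sum.inl).map (ev x) ++ ((rowsT (rs.drop (k + 1))).map (ev x) ++ X)) := by
  induction rs with
  | nil =>
    constructor
    · intro h; exact absurd h (choose_stop hX)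
    · rintro ⟨k, h, _⟩; exact absurd h (Nat.not_lt_zero k)
  | cons r rs ih =>
    rw [rowsT_cons, List.map_cons, List.map_append, List.cons_append, List.append_assoc, G_choose]
    constructor
    · rintro ⟨a, w', h1, h2⟩
      rw [List.cons.injEq] at h1
      obtain ⟨_, rfl⟩ := h1
      rcases h2 with ⟨_, h2⟩ | ⟨_, h2⟩
      · obtain ⟨k, hk, h3⟩ := ih.1 ((choose_bits x r _).1 h2)
        exact ⟨k + 1, by simpa using hk, by simpa using h3⟩
      · exact ⟨0, by simp, by simpa using h2⟩
    · rintro ⟨k, hk, h3⟩
      refine ⟨_, _, rfl, ?_⟩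
      rcases k with _ | k
      · right
        exact ⟨rfl, by simpa using h3⟩
      · left
        refine ⟨Or.inr (Or.inr rfl), (choose_bits x r _).2 (ih.2 ⟨k, by simpa using hk, ?_⟩)⟩
        simpa using h3

/-- The row with the number `k` is chosen if there are `k` letters `fill`. -/
theorem carry_rows (x : β → Bool) (rs : List (List β)) {X : List Letter} (hX : Stop X) (k : ℕ) :
    G carry ((rowsT rs).map (ev x) ++ (X ++ gate :: List.replicate k fill)) ↔
      ∃ h : k < rs.length,
        G scan ((rs[k].map Sum.inl).map (ev x) ++ ((rowsT (rs.drop (k + 1))).map (ev x) ++ X)) := by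
  induction rs generalizing k with
  | nil =>
    constructor
    · intro h
      refine absurd h (carry_stop ?_)
      obtain ⟨Y, hY⟩ := hX
      rcases hY with rfl | rfl
      · exact ⟨_, Or.inl rfl⟩
      · exact ⟨_, Or.inr rfl⟩
    · rintro ⟨h, _⟩; exact absurd h (Nat.not_lt_zero k)
  | cons r rs ih =>
    rw [rowsT_cons, List.map_cons, List.map_append, List.cons_append, List.append_assoc]
    rcases k with _ | k
    · have he : ((r.map Sum.inl).map (ev x) ++ ((rowsT rs).map (ev x) ++
          (X ++ gate :: List.replicate 0 fill))) =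
          ((r.map Sum.inl).map (ev x) ++ ((rowsT rs).map (ev x) ++ X)) ++ [gate] := by
        simp
      rw [he, G_carry]
      constructor
      · rintro (⟨b, w', h1, h2⟩ | ⟨w', h1, h2⟩ | ⟨w', h1, h2⟩)
        · rw [List.cons.injEq] at h1
          exact absurd h1.1.symm (bl_ne_row b)
        · rw [List.cons.injEq] at h1
          have := (List.append_inj' h1.2 rfl).2
          exact absurd this (by simp)
        · rw [List.cons.injEq] at h1
          have := (List.append_inj' h1.2 rfl).1
          rw [← this] at h2
          exact ⟨by simp, by simpa using h2⟩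
      · rintro ⟨_, h2⟩
        exact Or.inr (Or.inr ⟨_, rfl, by simpa using h2⟩)
    · have he : ((r.map Sum.inl).map (ev x) ++ ((rowsT rs).map (ev x) ++
          (X ++ gate :: List.replicate (k + 1) fill))) =
          ((r.map Sum.inl).map (ev x) ++ ((rowsT rs).map (ev x) ++
            (X ++ gate :: List.replicate k fill))) ++ [fill] := by
        simp [List.replicate_succ']
      rw [he, G_carry]
      constructor
      · rintro (⟨b, w', h1, h2⟩ | ⟨w', h1, h2⟩ | ⟨w', h1, h2⟩)
        · rw [List.cons.injEq] at h1
          exact absurd h1.1.symm (bl_ne_row b)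
        · rw [List.cons.injEq] at h1
          have := (List.append_inj' h1.2 rfl).1
          rw [← this, carry_bits, ih] at h2
          obtain ⟨h3, h4⟩ := h2
          exact ⟨by simpa using h3, by simpa using h4⟩
        · rw [List.cons.injEq] at h1
          have := (List.append_inj' h1.2 rfl).2
          exact absurd this (by simp)
      · rintro ⟨h3, h4⟩
        refine Or.inr (Or.inl ⟨_, rfl, ?_⟩)
        rw [carry_bits, ih]
        exact ⟨by simpa using h3, by simpa using h4⟩

/-- A cell with the bit `1` is chosen. -/
theorem scan_cells (x : β → Bool) (r : List β) {X : List Letter} (hX : Brk X) :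
    G scan ((r.map Sum.inl).map (ev x) ++ (X ++ List.replicate r.length fill)) ↔
      ∃ i, ∃ h : i < r.length, x r[i] = true ∧
        G skip (X ++ List.replicate (r.length - 1 - i) fill) := by
  induction r with
  | nil =>
    constructor
    · intro h
      exact absurd h (scan_brk (by simpa using hX))
    · rintro ⟨k, h, _⟩; exact absurd h (Nat.not_lt_zero k)
  | cons e r ih =>
    have he : (((e :: r).map Sum.inl).map (ev x) ++
        (X ++ List.replicate (e :: r).length fill)) =
        bl (x e) :: (((r.map Sum.inl).map (ev x) ++ (X ++ List.replicate r.length fill)) ++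
          [fill]) := by
      simp [List.replicate_succ', ev]
    rw [he, G_scan]
    constructor
    · rintro ⟨b, w', h1, h2⟩
      rw [List.cons.injEq] at h1
      have h3 := (List.append_inj' h1.2 rfl).1
      have h4 : x e = b := by
        have := h1.1
        revert this
        cases x e <;> cases b <;> simp [bl]
      rw [← h3] at h2
      rcases h2 with h2 | ⟨h2, h5⟩
      · obtain ⟨i, hi, h6, h7⟩ := ih.1 h2
        refine ⟨i + 1, by simpa using hi, by simpa using h6, ?_⟩
        have h8 : (e :: r).length - 1 - (i + 1) = r.length - 1 - i := by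
          rw [List.length_cons]; omega
        rw [h8]
        exact h7
      · refine ⟨0, by simp, by simpa [h2] using h4, ?_⟩
        rw [skip_bits] at h5
        simpa using h5
    · rintro ⟨i, hi, h6, h7⟩
      refine ⟨x e, _, rfl, ?_⟩
      rcases i with _ | i
      · right
        refine ⟨by simpa using h6, (skip_bits x r _).2 ?_⟩
        simpa using h7
      · left
        refine ih.2 ⟨i, by simpa using hi, by simpa using h6, ?_⟩
        have h8 : (e :: r).length - 1 - (i + 1) = r.length - 1 - i := by
          rw [List.length_cons]; omega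
        rw [h8] at h7
        exact h7

theorem scan_cells' (x : β → Bool) (r : List β) {X : List Letter} (hX : Brk X) {m : ℕ}
    (hm : r.length = m) :
    G scan ((r.map Sum.inl).map (ev x) ++ (X ++ List.replicate m fill)) ↔
      ∃ i, ∃ h : i < r.length, x r[i] = true ∧
        G skip (X ++ List.replicate (m - 1 - i) fill) := by
  subst hm
  exact scan_cells x r hX

/-- A path through the regions which starts with the row `a`. -/
def Path (x : β → Bool) (m : ℕ) : List (List β) → List (List (List β)) → ℕ → Prop
  | rs, [], a => ∃ i, ∃ (h : a < rs.length) (hi : i < rs[a].length), x rs[a][i] = true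
  | rs, rs' :: regs, a => ∃ i, ∃ (h : a < rs.length) (hi : i < rs[a].length), x rs[a][i] = true ∧
      Path x m rs' regs (m - 1 - i)

theorem scan_path (x : β → Bool) (m : ℕ) (pad : List (β ⊕ Letter)) (regs : List (List (List β))) :
    ∀ (rs : List (List β)), (∀ r ∈ rs, r.length = m) → (∀ rs' ∈ regs, ∀ r ∈ rs', r.length = m) →
    ∀ (a : ℕ) (ha : a < rs.length),
    (G scan ((rs[a].map Sum.inl).map (ev x) ++ ((rowsT (rs.drop (a + 1))).map (ev x) ++
      ((tailT m pad regs).map (ev x) ++ List.replicate m fill))) ↔ Path x m rs regs a) := by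
  induction regs with
  | nil =>
    intro rs h1 h2 a ha
    have hm : (rs[a]).length = m := h1 _ (List.getElem_mem ha)
    have h3 := scan_cells' x rs[a]
      (X := (rowsT (rs.drop (a + 1))).map (ev x) ++ (tailT m pad []).map (ev x)) (by
        rcases hd : rs.drop (a + 1) with _ | ⟨r, rs'⟩
        · exact ⟨_, Or.inr (Or.inl rfl)⟩
        · rw [rowsT_cons]
          exact ⟨_, Or.inr (Or.inr rfl)⟩) hm
    rw [List.append_assoc] at h3
    rw [h3]
    unfold Path
    constructor
    · rintro ⟨i, hi, h4, _⟩
      exact ⟨i, ha, by omega, h4⟩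
    · rintro ⟨i, _, hi, h4⟩
      refine ⟨i, by omega, h4, ?_⟩
      rw [List.append_assoc, skip_rows]
      rw [G_skip]
      exact ⟨fill, _, rfl, Or.inr (Or.inr rfl)⟩
  | cons rs' regs ih =>
    intro rs h1 h2 a ha
    have hm : (rs[a]).length = m := h1 _ (List.getElem_mem ha)
    have h3 := scan_cells' x rs[a]
      (X := (rowsT (rs.drop (a + 1))).map (ev x) ++ (tailT m pad (rs' :: regs)).map (ev x)) (by
        rcases hd : rs.drop (a + 1) with _ | ⟨r, rs'⟩
        · exact ⟨_, Or.inl rfl⟩
        · rw [rowsT_cons]
          exact ⟨_, Or.inr (Or.inr rfl)⟩) hm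
    rw [List.append_assoc] at h3
    rw [h3]
    have hkey : ∀ k, G skip ((rowsT (rs.drop (a + 1))).map (ev x) ++
        ((tailT m pad (rs' :: regs)).map (ev x) ++ List.replicate k fill)) ↔
        ∃ _ : k < rs'.length, Path x m rs' regs k := by
      intro k
      rw [skip_rows]
      have he : (tailT m pad (rs' :: regs)).map (ev x) ++ List.replicate k fill =
          gate :: ((rowsT rs').map (ev x) ++ (((tailT m pad regs).map (ev x) ++
            List.replicate m fill) ++ gate :: List.replicate k fill)) := by
        simp [tailT, ev]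
      rw [he, G_skip]
      have h4 := carry_rows x rs' (tail_stop x m pad regs (List.replicate m fill)) k
      constructor
      · rintro ⟨a, w', h5, h6⟩
        rw [List.cons.injEq] at h5
        obtain ⟨rfl, rfl⟩ := h5
        rcases h6 with ⟨h6, _⟩ | ⟨_, h6⟩ | h6
        · exact absurd h6 (by simp)
        · obtain ⟨h7, h8⟩ := h4.1 h6
          exact ⟨h7, (ih rs' (h2 rs' (by simp)) (fun r hr => h2 r (by simp [hr])) k h7).1 h8⟩
        · exact absurd h6 (by simp)
      · rintro ⟨h7, h8⟩
        refine ⟨gate, _, rfl, Or.inr (Or.inl ⟨rfl, h4.2 ⟨h7, ?_⟩⟩)⟩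
        exact (ih rs' (h2 rs' (by simp)) (fun r hr => h2 r (by simp [hr])) k h7).2 h8
    constructor
    · rintro ⟨i, hi, h4, h5⟩
      rw [List.append_assoc, hkey] at h5
      exact ⟨i, ha, by omega, h4, h5.2⟩
    · rintro ⟨i, _, hi, h4, h5⟩
      refine ⟨i, by omega, h4, ?_⟩
      rw [List.append_assoc, hkey]
      refine ⟨?_, h5⟩
      cases regs with
      | nil => exact h5.choose_spec.choose
      | cons _ _ => exact h5.choose_spec.choose

/-- The word is in the language if and only if there is a path. -/
theorem word_path (x : β → Bool) (m : ℕ) (pad : List (β ⊕ Letter)) (rs : List (List β))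
    (regs : List (List (List β))) (h1 : ∀ r ∈ rs, r.length = m)
    (h2 : ∀ rs' ∈ regs, ∀ r ∈ rs', r.length = m) :
    (wordT m pad rs regs).map (ev x) ∈ gram.language ↔ ∃ a, Path x m rs regs a := by
  have he : (wordT m pad rs regs).map (ev x) = (rowsT rs).map (ev x) ++
      ((tailT m pad regs).map (ev x) ++ List.replicate m fill) := by
    simp [wordT, ev]
  rw [he]
  change G choose _ ↔ _
  rw [choose_rows x rs (tail_stop x m pad regs _)]
  constructor
  · rintro ⟨k, hk, h3⟩
    exact ⟨k, (scan_path x m pad regs rs h1 h2 k hk).1 h3⟩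
  · rintro ⟨k, h3⟩
    have hk : k < rs.length := by
      cases regs with
      | nil => exact h3.choose_spec.choose
      | cons _ _ => exact h3.choose_spec.choose
    exact ⟨k, hk, (scan_path x m pad regs rs h1 h2 k hk).2 h3⟩

end Pool.Agent.HM94.LIN
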